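import Pool.Agent.W295.PR.Stm

set_option autoImplicit false

namespace Pool.Agent.W224.PR.NEWT

open Pool.Agent.W295.PR Finset
open scoped fwdDiff

/-- additive version of PDeg -/
def ADeg {R A : Type} [AddCommGroup R] [AddCommGroup A] : ℕ → (R → A) → Prop
  | 0, f => ∀ h x, f (x + h) = f x
  | d + 1, f => ∀ h, ADeg d (fun x => f (x + h) - f x)

section
variable {R A : Type} [AddCommGroup R] [AddCommGroup A]

lemma zdeg_iff (d : ℕ) : ∀ (f : R → ℤ), ZDeg d f ↔ ADeg d f := by
  induction d with
  | zero => intro f; exact Iff.rfl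
  | succ d ih => intro f; exact forall_congr' fun h => ih _

lemma pdeg_iff {V : Type} [CommGroup V] (d : ℕ) :
    ∀ (f : R → V), PDeg d f ↔ ADeg d (fun x => Additive.ofMul (f x)) := by
  induction d with
  | zero => intro f; exact Iff.rfl
  | succ d ih =>
    intro f
    refine forall_congr' fun h => ?_
    rw [ih]
    have : (fun x => Additive.ofMul (f (x + h) * (f x)⁻¹)) =
        (fun x => Additive.ofMul (f (x + h)) - Additive.ofMul (f x)) := by
      funext x
      rw [← div_eq_mul_inv]; rfl
    rw [this]

lemma adeg_mono_succ (d : ℕ) : ∀ (f : R → A), ADeg d f → ADeg (d + 1) f := by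
  induction d with
  | zero => intro f hf h k x; simp only [hf h, sub_self]
  | succ d ih => intro f hf h; exact ih _ (hf h)

lemma adeg_mono {d e : ℕ} (h : d ≤ e) (f : R → A) (hf : ADeg d f) : ADeg e f := by
  induction e, h using Nat.le_induction with
  | base => exact hf
  | succ e _ ih => exact adeg_mono_succ e f ih

lemma adeg_add (d : ℕ) : ∀ (f g : R → A), ADeg d f → ADeg d g → ADeg d (fun x => f x + g x) := by
  induction d with
  | zero => intro f g hf hg h x; simp only [hf h, hg h]
  | succ d ih =>
    intro f g hf hg h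
    have := ih _ _ (hf h) (hg h)
    refine (congrArg (ADeg d) ?_).mp this
    funext x; simp only; abel

lemma adeg_zero (d : ℕ) : ADeg d (fun _ : R => (0 : A)) := by
  induction d with
  | zero => intro h x; rfl
  | succ d ih => intro h; simpa using ih

lemma adeg_sum {ι : Type} (s : Finset ι) (d : ℕ) (f : ι → R → A) (hf : ∀ i ∈ s, ADeg d (f i)) :
    ADeg d (fun x => ∑ i ∈ s, f i x) := by
  classical
  induction s using Finset.induction_on with
  | empty => simpa using adeg_zero d
  | insert a s ha ih =>
    simp only [Finset.sum_insert ha]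
    exact adeg_add d _ _ (hf a (Finset.mem_insert_self a s))
      (ih fun i hi => hf i (Finset.mem_insert_of_mem hi))

lemma adeg_translate (d : ℕ) : ∀ (f : R → A), ADeg d f → ∀ k, ADeg d (fun x => f (x + k)) := by
  induction d with
  | zero => intro f hf k h x; simp only; rw [add_right_comm, hf h]
  | succ d ih =>
    intro f hf k h
    have := ih _ (hf h) k
    refine (congrArg (ADeg d) ?_).mp this
    funext x; simp only; rw [add_right_comm]

lemma adeg_comp {R' : Type} [AddCommGroup R'] (φ : R' →+ R) (k : R) (d : ℕ) :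
    ∀ (f : R → A), ADeg d f → ADeg d (fun x => f (φ x + k)) := by
  induction d with
  | zero => intro f hf h x; simp only [map_add]; rw [add_right_comm, hf]
  | succ d ih =>
    intro f hf h
    have := ih _ (hf (φ h))
    refine (congrArg (ADeg d) ?_).mp this
    funext x; simp only [map_add]; rw [add_right_comm]

lemma adeg_const_of_zero {f : R → A} (hf : ADeg 0 f) (x : R) : f x = f 0 := by
  have := hf x 0
  rwa [zero_add] at this

lemma adeg_const_mul (d : ℕ) (c : ℤ) : ∀ (f : R → ℤ), ADeg d f → ADeg d (fun x => c * f x) := by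
  induction d with
  | zero => intro f hf h x; simp only [hf h]
  | succ d ih =>
    intro f hf h
    refine (congrArg (ADeg d) ?_).mp (ih _ (hf h))
    funext x; simp only; ring

lemma adeg_mul (n : ℕ) : ∀ (a b : ℕ) (_ : a + b = n) (f g : R → ℤ), ADeg a f → ADeg b g →
    ADeg n (fun x => f x * g x) := by
  induction n with
  | zero =>
    intro a b hab f g hf hg
    obtain ⟨rfl, rfl⟩ : a = 0 ∧ b = 0 := by omega
    intro h x; simp only [hf h, hg h]
  | succ n ih =>
    intro a b hab f g hf hg
    rcases Nat.eq_zero_or_pos a with rfl | ha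
    · have : b = n + 1 := by omega
      subst this
      have h1 := adeg_const_mul (n + 1) (f 0) g hg
      refine (congrArg (ADeg (n + 1)) ?_).mp h1
      funext x; rw [adeg_const_of_zero hf x]
    · rcases Nat.eq_zero_or_pos b with rfl | hb
      · have : a = n + 1 := by omega
        subst this
        have h1 := adeg_const_mul (n + 1) (g 0) f hf
        refine (congrArg (ADeg (n + 1)) ?_).mp h1
        funext x; rw [adeg_const_of_zero hg x, mul_comm]
      · obtain ⟨a, rfl⟩ : ∃ a', a = a' + 1 := ⟨a - 1, by omega⟩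
        obtain ⟨b, rfl⟩ : ∃ b', b = b' + 1 := ⟨b - 1, by omega⟩
        intro h
        have h1 := ih (a + 1) b (by omega) (fun x => f (x + h)) _ (adeg_translate _ f hf h) (hg h)
        have h2 := ih a (b + 1) (by omega) _ g (hf h) hg
        refine (congrArg (ADeg n) ?_).mp (adeg_add n _ _ h1 h2)
        funext x; simp only; ring

end

/-- binomial coefficients have bounded degree -/
lemma adeg_choose (i : ℕ) : ADeg i (fun x : ℤ => Ring.choose x i) := by
  induction i using Nat.strong_induction_on with
  | _ i ih =>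
    rcases i with _ | i
    · intro h x; simp only [Ring.choose_zero_right]
    · intro h
      have key : (fun x : ℤ => Ring.choose (x + h) (i + 1) - Ring.choose x (i + 1)) =
          fun x => ∑ k ∈ range (i + 1), Ring.choose h (i + 1 - k) * Ring.choose x k := by
        funext x
        rw [Ring.add_choose_eq (i + 1) (Commute.all x h),
          Finset.Nat.sum_antidiagonal_eq_sum_range_succ_mk, Finset.sum_range_succ]
        simp only [Nat.sub_self, Ring.choose_zero_right, mul_one, add_sub_cancel_right]
        refine Finset.sum_congr rfl fun k _ => mul_comm _ _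
      rw [key]
      refine adeg_sum _ _ _ fun k hk => ?_
      have hk' : k ≤ i := by have := Finset.mem_range.mp hk; omega
      exact adeg_const_mul _ _ _ (adeg_mono hk' _ (ih k (by omega)))

/-- Newton's formula on `ℤ` -/
lemma newton {A : Type} [AddCommGroup A] (d : ℕ) : ∀ (g : ℤ → A), ADeg d g → ∀ n,
    g n = ∑ i ∈ range (d + 1), (Ring.choose n i) • ((fwdDiff (1:ℤ))^[i] g 0) := by
  induction d with
  | zero =>
    intro g hg n
    simp [adeg_const_of_zero hg n]
  | succ d ih =>
    intro g hg
    have h1 : ∀ n, g (n + 1) - g n =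
        ∑ i ∈ range (d + 1), (Ring.choose n i) • ((fwdDiff (1:ℤ))^[i + 1] g 0) := by
      intro n
      have := ih _ (hg 1) n
      simp only [Function.iterate_succ_apply]
      exact this
    have h2 : ∀ n : ℤ, (∑ i ∈ range (d + 1 + 1), (Ring.choose (n + 1) i) • ((fwdDiff (1:ℤ))^[i] g 0)) =
        (∑ i ∈ range (d + 1 + 1), (Ring.choose n i) • ((fwdDiff (1:ℤ))^[i] g 0)) +
        ∑ i ∈ range (d + 1), (Ring.choose n i) • ((fwdDiff (1:ℤ))^[i + 1] g 0) := by
      intro n
      rw [Finset.sum_range_succ' _ (d + 1), Finset.sum_range_succ' _ (d + 1)]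
      simp only [Ring.choose_succ_succ, add_smul, Finset.sum_add_distrib, Ring.choose_zero_right]
      abel
    intro n
    induction n using Int.induction_on with
    | zero =>
      rw [Finset.sum_range_succ' _ (d + 1)]
      simp [Ring.choose_zero_succ]
    | succ n ihn =>
      rw [h2, ← ihn, ← h1]; abel
    | pred n ihn =>
      have h3 := h2 (-(n : ℤ) - 1)
      rw [← h1] at h3
      rw [sub_add_cancel] at h3
      rw [← ihn] at h3
      have : g (-(n : ℤ) - 1 + 1) = g (-(n : ℤ)) := by rw [sub_add_cancel]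
      rw [eq_comm, ← sub_eq_zero]
      have h4 : (∑ i ∈ range (d + 1 + 1), (Ring.choose (-(n : ℤ) - 1) i) • ((fwdDiff (1:ℤ))^[i] g 0)) =
        g (-(n : ℤ)) - (g (-(n : ℤ)) - g (-(n : ℤ) - 1)) := by
        rw [eq_sub_iff_add_eq]; exact h3.symm
      rw [h4]; abel

/-- interpolation coefficients -/
def cc (d k : ℕ) (n : ℤ) : ℤ :=
  ∑ i ∈ range (d + 1), ((-1 : ℤ) ^ (i - k) * (i.choose k : ℤ)) * Ring.choose n i

lemma adeg_cc (d k : ℕ) : ADeg d (cc d k) := by
  unfold cc
  refine adeg_sum _ _ _ fun i hi => ?_
  have hi' : i ≤ d := by have := Finset.mem_range.mp hi; omega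
  exact adeg_const_mul _ _ _ (adeg_mono hi' _ (adeg_choose i))

lemma interp {A : Type} [AddCommGroup A] (d : ℕ) (g : ℤ → A) (hg : ADeg d g) (n : ℤ) :
    g n = ∑ k ∈ range (d + 1), cc d k n • g k := by
  rw [newton d g hg n]
  have h1 : ∀ i ∈ range (d + 1), (Ring.choose n i) • ((fwdDiff (1:ℤ))^[i] g 0) =
      ∑ k ∈ range (d + 1), (((-1 : ℤ) ^ (i - k) * (i.choose k : ℤ)) * Ring.choose n i) • g k := by
    intro i hi
    have hi' : i < d + 1 := Finset.mem_range.mp hi
    rw [fwdDiff_iter_eq_sum_shift, Finset.smul_sum]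
    have hsub : range (i + 1) ⊆ range (d + 1) := Finset.range_subset_range.mpr hi'
    rw [← Finset.sum_subset hsub]
    · refine Finset.sum_congr rfl fun k _ => ?_
      rw [smul_smul, mul_comm]
      simp
    · intro k _ hk
      have : i < k := by
        have := Finset.mem_range.not.mp hk
        omega
      rw [Nat.choose_eq_zero_of_lt this]
      simp
  rw [Finset.sum_congr rfl h1, Finset.sum_comm]
  refine Finset.sum_congr rfl fun k _ => ?_
  rw [cc, Finset.sum_smul]

lemma poly_choose (d i : ℕ) (hi : i ≤ d) : ∃ P : Polynomial ℤ, ∀ n : ℤ,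
    (d.factorial : ℤ) * Ring.choose n i = P.eval n := by
  obtain ⟨e, he⟩ := Nat.factorial_dvd_factorial hi
  refine ⟨Polynomial.C (e : ℤ) * descPochhammer ℤ i, fun n => ?_⟩
  have h := Ring.descPochhammer_eq_factorial_smul_choose n i
  rw [Polynomial.eval_mul, Polynomial.eval_C, he]
  have h' : (descPochhammer ℤ i).eval n = (i.factorial : ℤ) * Ring.choose n i := by
    rw [Polynomial.eval_eq_smeval, h, nsmul_eq_mul]
  rw [h']; push_cast; ring

lemma poly_cc (d k : ℕ) : ∃ P : Polynomial ℤ, ∀ n : ℤ, (d.factorial : ℤ) * cc d k n = P.eval n := by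
  choose P hP using fun i : Fin (d + 1) => poly_choose d i (by omega)
  refine ⟨∑ i : Fin (d + 1), Polynomial.C ((-1 : ℤ) ^ ((i : ℕ) - k) * ((i : ℕ).choose k : ℤ)) * P i,
    fun n => ?_⟩
  rw [Polynomial.eval_finsetSum, cc, Finset.mul_sum, ← Fin.sum_univ_eq_sum_range
    (fun i => (d.factorial : ℤ) * (((-1 : ℤ) ^ (i - k) * (i.choose k : ℤ)) * Ring.choose n i))]
  refine Finset.sum_congr rfl fun i _ => ?_
  rw [Polynomial.eval_mul, Polynomial.eval_C, ← hP i n]; ring

/-- the additive form, by induction on the number of variables -/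
lemma main_add (d : ℕ) : ∀ D : ℕ, ∃ (B : Finset (RR D)) (m : RR D → RR D → ℤ) (d' : ℕ) (N0 : ℕ),
    1 ≤ N0 ∧ (∀ β, ADeg d' (m β)) ∧
    (∀ β, ∃ P : MvPolynomial (Fin D) ℤ, ∀ q, (N0 : ℤ) * m β q = MvPolynomial.eval q P) ∧
    ∀ (A : Type) [AddCommGroup A] (f : RR D → A), ADeg d f → ∀ q, f q = ∑ β ∈ B, m β q • f β := by
  intro D
  induction D with
  | zero =>
    refine ⟨{0}, fun _ _ => 1, 0, 1, le_rfl, fun β h x => rfl, fun β => ⟨1, fun q => by simp⟩, ?_⟩
    intro A _ f _ q
    have : q = 0 := Subsingleton.elim _ _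
    simp [this]
  | succ D ih =>
    obtain ⟨B', m', d', N0, hN0, hZ, hP, hI⟩ := ih
    let c : ℕ × RR D → RR (D + 1) := fun p => Fin.cons (p.1 : ℤ) p.2
    have hc : Function.Injective c := by
      intro p p' h
      have h' := Fin.cons_injective2 (α := fun _ => ℤ) h
      exact Prod.ext (by exact_mod_cast h'.1) h'.2
    let e0 : RR (D + 1) →+ ℤ := Pi.evalAddMonoidHom (fun _ => ℤ) 0
    let eT : RR (D + 1) →+ RR D :=
      { toFun := fun q => Fin.tail q
        map_zero' := rfl
        map_add' := fun _ _ => rfl }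
    refine ⟨(range (d + 1) ×ˢ B').image c,
      fun β q => cc d (β 0).toNat (q 0) * m' (Fin.tail β) (Fin.tail q), d + d',
      d.factorial * N0, Nat.mul_pos (Nat.factorial_pos d) hN0, ?_, ?_, ?_⟩
    · intro β
      refine adeg_mul (d + d') d d' rfl (fun q : RR (D + 1) => cc d (β 0).toNat (q 0))
        (fun q => m' (Fin.tail β) (Fin.tail q)) ?_ ?_
      · have := adeg_comp e0 0 d _ (adeg_cc d (β 0).toNat)
        refine (congrArg (ADeg d) ?_).mp this
        funext q; simp [e0]
      · have := adeg_comp eT 0 d' _ (hZ (Fin.tail β))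
        refine (congrArg (ADeg d') ?_).mp this
        funext q; simp [eT]
    · intro β
      obtain ⟨P, hPP⟩ := poly_cc d (β 0).toNat
      obtain ⟨P', hP'⟩ := hP (Fin.tail β)
      refine ⟨Polynomial.aeval (MvPolynomial.X 0) P * MvPolynomial.rename Fin.succ P', fun q => ?_⟩
      have h1 : MvPolynomial.eval q (Polynomial.aeval (MvPolynomial.X 0) P) = P.eval (q 0) := by
        rw [Polynomial.aeval_def, Polynomial.hom_eval₂, MvPolynomial.eval_X]
        rw [Polynomial.eval₂_eq_eval_map]
        congr 1
        rw [show ((MvPolynomial.eval q).comp (algebraMap ℤ (MvPolynomial (Fin (D + 1)) ℤ))) =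
          RingHom.id ℤ from RingHom.ext_int _ _]
        exact Polynomial.map_id
      have h2 : MvPolynomial.eval q (MvPolynomial.rename Fin.succ P') =
          MvPolynomial.eval (Fin.tail q) P' := by
        rw [MvPolynomial.eval_rename]; rfl
      rw [map_mul, h1, h2, ← hPP, ← hP']
      push_cast; ring
    · intro A _ f hf q
      rw [Finset.sum_image (fun p _ p' _ h => hc h), Finset.sum_product]
      -- one variable
      have hq : q = Fin.cons (q 0) (Fin.tail q) := (Fin.cons_self_tail q).symm
      let φ : ℤ →+ RR (D + 1) :=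
        { toFun := fun n => Fin.cons n 0
          map_zero' := by
            funext i; refine Fin.cases ?_ (fun i => ?_) i <;> simp
          map_add' := fun a b => by
            funext i; refine Fin.cases ?_ (fun i => ?_) i <;> simp }
      let ψ : RR D →+ RR (D + 1) :=
        { toFun := fun r => Fin.cons 0 r
          map_zero' := by
            funext i; refine Fin.cases ?_ (fun i => ?_) i <;> simp
          map_add' := fun a b => by
            funext i; refine Fin.cases ?_ (fun i => ?_) i <;> simp }
      have hφ : ∀ n : ℤ, φ n + Fin.cons 0 (Fin.tail q) = Fin.cons n (Fin.tail q) := by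
        intro n
        funext i; refine Fin.cases ?_ (fun i => ?_) i <;> simp [φ]
      have hψ : ∀ (j : ℤ) (r : RR D), ψ r + Fin.cons j 0 = Fin.cons j r := by
        intro j r
        funext i; refine Fin.cases ?_ (fun i => ?_) i <;> simp [ψ]
      have h1 := interp d _ (adeg_comp φ (Fin.cons 0 (Fin.tail q)) d f hf) (q 0)
      simp only [hφ] at h1
      rw [Fin.cons_self_tail] at h1
      rw [h1]
      refine Finset.sum_congr rfl fun j _ => ?_
      have h2 := hI A _ (adeg_comp ψ (Fin.cons (j : ℤ) 0) d f hf) (Fin.tail q)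
      simp only [hψ] at h2
      rw [h2, Finset.smul_sum]
      refine Finset.sum_congr rfl fun β' _ => ?_
      rw [smul_smul]
      simp [c]

theorem main : S_NEWT := by
  intro D d
  obtain ⟨B, m, d', N0, hN0, hZ, hP, hI⟩ := main_add d D
  refine ⟨B, m, d', N0, hN0, fun β => (zdeg_iff d' _).2 (hZ β), hP, ?_⟩
  intro V _ f hf q
  have := hI (Additive V) _ ((pdeg_iff d f).1 hf) q
  apply Additive.ofMul.injective
  rw [this, ofMul_prod]
  rfl

end Pool.Agent.W224.PR.NEWT
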